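import Pool.Agent.N541.LV.StmB

/-! # Project LV, SEQ: solutions give sequences of variables (helper712) -/

set_option autoImplicit false

namespace Pool.Agent.N712.LV

open Finset Pool.Agent.N541.LV

/-- the list of the variables, the latest first -/
def FF (X Y : ℕ → ℕ) : ℕ → List ℕ
  | 0 => []
  | i + 1 => Y i :: X i :: FF X Y i

variable {X Y : ℕ → ℕ}

theorem FF_length (i : ℕ) : (FF X Y i).length = 2 * i := by
  induction i with
  | zero => rfl
  | succ i ih =>
    show (Y i :: X i :: FF X Y i).length = _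
    rw [List.length_cons, List.length_cons, ih]
    ring

theorem FF_even (i j : ℕ) (h : j < i) : (FF X Y i).getD (2 * j) 0 = Y (i - 1 - j) := by
  induction i generalizing j with
  | zero => omega
  | succ i ih =>
    show (Y i :: X i :: FF X Y i).getD (2 * j) 0 = _
    rcases j with _ | j
    · simp
    · rw [show 2 * (j + 1) = 2 * j + 1 + 1 by ring, List.getD_cons_succ, List.getD_cons_succ,
        ih j (by omega)]
      congr 1
      omega

theorem FF_odd (i j : ℕ) (h : j < i) : (FF X Y i).getD (2 * j + 1) 0 = X (i - 1 - j) := by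
  induction i generalizing j with
  | zero => omega
  | succ i ih =>
    show (Y i :: X i :: FF X Y i).getD (2 * j + 1) 0 = _
    rcases j with _ | j
    · simp
    · rw [show 2 * (j + 1) + 1 = (2 * j + 1) + 1 + 1 by ring, List.getD_cons_succ,
        List.getD_cons_succ, ih j (by omega)]
      congr 1
      omega

theorem Mo_opp (p : List ℕ) (z : ℕ) : Mo (opp p) z =
    ∏ j ∈ range ((p.length + 1) / 2), ((z : ℤ) - (p.getD (2 * j) 0 : ℕ)) := by
  rw [Finset.prod_range]
  rfl

theorem Mo_F (i z : ℕ) : Mo (opp (FF X Y i)) z = ∏ j ∈ range i, ((z : ℤ) - (Y j : ℕ)) := by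
  rw [Mo_opp, FF_length, show (2 * i + 1) / 2 = i by omega,
    ← Finset.prod_range_reflect (fun j => (z : ℤ) - (Y j : ℕ))]
  refine Finset.prod_congr rfl fun j hj => ?_
  rw [FF_even i j (mem_range.1 hj)]

theorem Mo_XF (i z : ℕ) :
    Mo (opp (X i :: FF X Y i)) z = ∏ j ∈ range (i + 1), ((z : ℤ) - (X j : ℕ)) := by
  rw [Mo_opp, List.length_cons, FF_length, show (2 * i + 1 + 1) / 2 = i + 1 by omega,
    ← Finset.prod_range_reflect (fun j => (z : ℤ) - (X j : ℕ))]
  refine Finset.prod_congr rfl fun j hj => ?_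
  have h : (X i :: FF X Y i).getD (2 * j) 0 = X (i + 1 - 1 - j) := by
    rcases j with _ | j
    · simp
    · have hj' : j < i := by
        have := mem_range.1 hj
        omega
      rw [show 2 * (j + 1) = 2 * j + 1 + 1 by ring, List.getD_cons_succ, FF_odd i j hj']
      congr 1
      omega
  rw [h]

theorem mem_step {N t z : ℕ} {L : List ℕ → Prop} {p : List ℕ} (hp : p ∈ seqs N L t) (h1 : 1 ≤ z)
    (h2 : z ≤ N) (h3 : L (z :: p)) : z :: p ∈ seqs N L (t + 1) := by
  classical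
  unfold seqs
  rw [mem_filter]
  refine ⟨mem_image.2 ⟨(p, z), mem_product.2 ⟨hp, mem_Icc.2 ⟨h1, h2⟩⟩, rfl⟩, h3⟩

theorem FF_inj {X' Y' : ℕ → ℕ} (s : ℕ) (h : FF X Y s = FF X' Y' s) :
    ∀ i < s, X i = X' i ∧ Y i = Y' i := by
  induction s with
  | zero => intro i hi; omega
  | succ s ih =>
    have h1 : Y s :: X s :: FF X Y s = Y' s :: X' s :: FF X' Y' s := h
    rw [List.cons.injEq, List.cons.injEq] at h1
    intro i hi
    rcases Nat.lt_succ_iff_lt_or_eq.1 hi with h2 | h2
    · exact ih h1.2.2 i h2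
    · rw [h2]
      exact ⟨h1.2.1, h1.1⟩

/-- the extension by zero -/
def ex {s : ℕ} (x : Fin s → ℕ) (i : ℕ) : ℕ := if h : i < s then x ⟨i, h⟩ else 0

theorem ex_val {s : ℕ} (x : Fin s → ℕ) (i : Fin s) : ex x i = x i := dif_pos i.2

theorem ex_lt {s : ℕ} (x : Fin s → ℕ) {i : ℕ} (h : i < s) : ex x i = x ⟨i, h⟩ := dif_pos h

theorem prod_ex {s : ℕ} (x : Fin s → ℕ) (t : ℤ) :
    ∏ i, (t - (x i : ℤ)) = ∏ j ∈ range s, (t - (ex x j : ℤ)) := by
  rw [Finset.prod_range]
  refine Finset.prod_congr rfl fun i _ => ?_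
  rw [ex_val]

theorem live {d s : ℕ} {R : Fin d → ℕ} {x y : Fin s → ℕ} {P : Fin d → ℤ} (_ : P ∈ box R)
    (hxy : ∀ i j, x i ≠ y j)
    (hev : ∀ t : ℤ, ev P t = ∏ i, (t - (x i : ℤ)) - ∏ i, (t - (y i : ℤ))) (i : ℕ) (hi : i ≤ s) :
    (P ∈ lat d (FF (ex x) (ex y) i) ∧ ∀ z ∈ FF (ex x) (ex y) i, ev P (z : ℤ) ≠ 0) ∧
    (i < s → P ∈ lat d (ex x i :: FF (ex x) (ex y) i) ∧
      ∀ z ∈ ex x i :: FF (ex x) (ex y) i, ev P (z : ℤ) ≠ 0) := by
  have hx : ∀ i < s, ev P (ex x i : ℤ) = -∏ j ∈ range s, ((ex x i : ℤ) - (ex y j : ℤ)) := by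
    intro i hi
    rw [hev, prod_ex x, prod_ex y, Finset.prod_eq_zero (mem_range.2 hi) (sub_self _), zero_sub]
  have hy : ∀ i < s, ev P (ex y i : ℤ) = ∏ j ∈ range s, ((ex y i : ℤ) - (ex x j : ℤ)) := by
    intro i hi
    rw [hev, prod_ex x, prod_ex y,
      Finset.prod_eq_zero (f := fun j => (ex y i : ℤ) - (ex y j : ℤ)) (mem_range.2 hi)
        (sub_self _), sub_zero]
  have hne : ∀ i < s, ∀ j < s, ex x i ≠ ex y j := by
    intro i hi j hj
    rw [ex_lt x hi, ex_lt y hj]
    exact hxy _ _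
  have hx0 : ∀ i < s, ev P (ex x i : ℤ) ≠ 0 := by
    intro i hi
    rw [hx i hi, neg_ne_zero, Finset.prod_ne_zero_iff]
    intro j hj h
    exact hne i hi j (mem_range.1 hj) (by exact_mod_cast sub_eq_zero.1 h)
  have hy0 : ∀ i < s, ev P (ex y i : ℤ) ≠ 0 := by
    intro i hi
    rw [hy i hi, Finset.prod_ne_zero_iff]
    intro j hj h
    exact hne j (mem_range.1 hj) i hi (by exact_mod_cast (sub_eq_zero.1 h).symm)
  induction i with
  | zero =>
    refine ⟨⟨AddSubgroup.mem_top _, fun z hz => ?_⟩, fun h0 => ⟨?_, fun z hz => ?_⟩⟩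
    · exact absurd hz List.not_mem_nil
    · refine ⟨AddSubgroup.mem_top _, ?_⟩
      have h1 := Mo_F (X := ex x) (Y := ex y) 0 (ex x 0)
      rw [range_zero, prod_empty] at h1
      show Mo (opp (FF (ex x) (ex y) 0)) (ex x 0) ∣ _
      rw [h1]
      exact one_dvd _
    · rcases List.mem_cons.1 hz with rfl | h2
      · exact hx0 0 h0
      · exact absurd h2 List.not_mem_nil
  | succ i ih =>
    obtain ⟨-, h2⟩ := ih (by omega)
    obtain ⟨h3, h4⟩ := h2 (by omega)
    have h5 : P ∈ lat d (FF (ex x) (ex y) (i + 1)) := by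
      refine ⟨h3, ?_⟩
      show Mo (opp (ex x i :: FF (ex x) (ex y) i)) (ex y i) ∣ _
      rw [Mo_XF, hy i (by omega)]
      exact Finset.prod_dvd_prod_of_subset _ _ _ (range_subset_range.2 hi)
    have h6 : ∀ z ∈ FF (ex x) (ex y) (i + 1), ev P (z : ℤ) ≠ 0 := by
      intro z hz
      rcases List.mem_cons.1 hz with rfl | h7
      · exact hy0 i (by omega)
      · exact h4 z h7
    refine ⟨⟨h5, h6⟩, fun hi' => ⟨⟨h5, ?_⟩, fun z hz => ?_⟩⟩
    · show Mo (opp (FF (ex x) (ex y) (i + 1))) (ex x (i + 1)) ∣ _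
      rw [Mo_F, hx _ hi', dvd_neg]
      exact Finset.prod_dvd_prod_of_subset _ _ _ (range_subset_range.2 hi)
    · rcases List.mem_cons.1 hz with rfl | h7
      · exact hx0 _ hi'
      · exact h6 z h7

theorem main : SEQStm := by
  classical
  intro d s N R A hA
  refine Finset.card_le_card_of_injOn (fun p => FF (ex p.1) (ex p.2) s) ?_ ?_
  · intro p hp
    obtain ⟨hx, hy, hxy, P, hP, hev⟩ := hA p hp
    have key : ∀ i ≤ s, FF (ex p.1) (ex p.2) i ∈ seqs N (Live d R) (2 * i) := by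
      intro i hi
      induction i with
      | zero => exact mem_singleton_self _
      | succ i ih =>
        have h1 := ih (by omega)
        have hL := live hP hxy hev
        have h2 := (hL i (by omega)).2 (by omega)
        have h3 := (hL (i + 1) hi).1
        have hpt : ∀ l : List ℕ, P ∈ lat d l → P ∈ pts (lat d l) R := fun l hl =>
          mem_filter.2 ⟨hP, hl⟩
        have hex : ex p.1 i = p.1 ⟨i, by omega⟩ := ex_lt _ _
        have hey : ex p.2 i = p.2 ⟨i, by omega⟩ := ex_lt _ _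
        have h4 : ex p.1 i :: FF (ex p.1) (ex p.2) i ∈ seqs N (Live d R) (2 * i + 1) :=
          mem_step h1 (by rw [hex]; exact (hx _).1) (by rw [hex]; exact (hx _).2)
            ⟨P, hpt _ h2.1, h2.2⟩
        have h5 : ex p.2 i :: ex p.1 i :: FF (ex p.1) (ex p.2) i ∈
            seqs N (Live d R) (2 * i + 1 + 1) :=
          mem_step h4 (by rw [hey]; exact (hy _).1) (by rw [hey]; exact (hy _).2)
            ⟨P, hpt _ h3.1, h3.2⟩
        exact h5
    exact key s le_rfl
  · intro p _ q _ hpq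
    have h := FF_inj s hpq
    refine Prod.ext (funext fun i => ?_) (funext fun i => ?_)
    · rw [← ex_val p.1 i, ← ex_val q.1 i]
      exact (h i i.2).1
    · rw [← ex_val p.2 i, ← ex_val q.2 i]
      exact (h i i.2).2

end Pool.Agent.N712.LV
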